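import Pool.Agent.helper8.GD.Spec

/-! # Project GD, module G2: partial summation -/

set_option autoImplicit false

namespace GD

open Finset MeasureTheory

theorem G2_main (h1 : G1_stmt) : G2_stmt := by
  classical
  obtain ⟨C, hC, hS⟩ := h1
  refine ⟨3 * C, by positivity, ?_⟩
  intro u v hu huv
  have hu' : (2 : ℝ) ≤ u := by exact_mod_cast hu
  set c : ℕ → ℝ := fun k => if k.Prime ∧ (k % 8 = 1 ∨ k % 8 = 7) then 2 * Real.log k / k else 0
    with hc
  set f : ℝ → ℝ := fun t => (Real.log t)⁻¹ with hf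
  set S : ℝ → ℝ := fun t => ∑ k ∈ Icc 0 ⌊t⌋₊, c k with hSdef
  have hlogpos : ∀ t ∈ Set.Icc (u : ℝ) v, 0 < Real.log t := fun t ht =>
    Real.log_pos (by linarith [ht.1])
  have hne : ∀ t ∈ Set.Icc (u : ℝ) v, t ≠ 0 := fun t ht => by
    have := ht.1
    intro h
    linarith
  have hderiv : ∀ t ∈ Set.Icc (u : ℝ) v, HasDerivAt f (-(t⁻¹) / Real.log t ^ 2) t := fun t ht =>
    (Real.hasDerivAt_log (hne t ht)).inv (hlogpos t ht).ne'
  have hlogcont : ContinuousOn (fun t : ℝ => Real.log t) (Set.Icc (u : ℝ) v) := fun t ht =>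
    (Real.continuousAt_log (hne t ht)).continuousWithinAt
  have hinvcont : ContinuousOn (fun t : ℝ => t⁻¹) (Set.Icc (u : ℝ) v) := fun t ht =>
    (continuousAt_inv₀ (hne t ht)).continuousWithinAt
  have hDcont : ContinuousOn (fun t : ℝ => t⁻¹ / Real.log t ^ 2) (Set.Icc (u : ℝ) v) :=
    hinvcont.div (hlogcont.pow 2) fun t ht => (pow_pos (hlogpos t ht) 2).ne'
  have hLcont : ContinuousOn (fun t : ℝ => t⁻¹ / Real.log t) (Set.Icc (u : ℝ) v) :=
    hinvcont.div hlogcont fun t ht => (hlogpos t ht).ne'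
  have hDint : IntegrableOn (fun t : ℝ => t⁻¹ / Real.log t ^ 2) (Set.Icc (u : ℝ) v) :=
    hDcont.integrableOn_Icc
  have hLint : IntegrableOn (fun t : ℝ => t⁻¹ / Real.log t) (Set.Icc (u : ℝ) v) :=
    hLcont.integrableOn_Icc
  have hdint : IntegrableOn (deriv f) (Set.Icc (u : ℝ) v) := by
    refine hDint.neg.congr_fun ?_ measurableSet_Icc
    intro t ht
    rw [(hderiv t ht).deriv]
    simp only [Pi.neg_apply]
    ring
  -- the function S
  have hSE : ∀ t : ℝ, 1 ≤ t → |S t - Real.log t| ≤ C := by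
    intro t ht
    have h2 := hS t ht
    have e : S t = ∑ l ∈ (Icc 1 ⌊t⌋₊).filter (fun l => l.Prime ∧ (l % 8 = 1 ∨ l % 8 = 7)),
        2 * Real.log l / l := by
      rw [hSdef]
      simp only [hc]
      rw [← Finset.sum_filter]
      refine Finset.sum_congr ?_ fun _ _ => rfl
      ext l
      simp only [Finset.mem_filter, Finset.mem_Icc]
      constructor
      · rintro ⟨⟨h3, h4⟩, h5⟩
        exact ⟨⟨h5.1.one_lt.le, h4⟩, h5⟩
      · rintro ⟨⟨h3, h4⟩, h5⟩
        exact ⟨⟨Nat.zero_le _, h4⟩, h5⟩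
    rw [e]
    exact h2
  have hsum : ∑ l ∈ Qs u v, 2 / (l : ℝ) = ∑ k ∈ Ioc ⌊(u : ℝ)⌋₊ ⌊v⌋₊, f k * c k := by
    rw [Nat.floor_natCast]
    have e : ∀ k ∈ Ioc u ⌊v⌋₊, f k * c k =
        if k.Prime ∧ (k % 8 = 1 ∨ k % 8 = 7) then 2 / (k : ℝ) else 0 := by
      intro k hk
      rw [Finset.mem_Ioc] at hk
      have h2 : (2 : ℝ) < k := by
        have : (u : ℝ) < k := by exact_mod_cast hk.1
        linarith
      have h3 : 0 < Real.log k := Real.log_pos (by linarith)
      simp only [hc, hf]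
      split_ifs
      · have h4 : (k : ℝ) ≠ 0 := by linarith
        field_simp
      · ring
    rw [Finset.sum_congr rfl e, ← Finset.sum_filter]
    refine Finset.sum_congr ?_ fun _ _ => rfl
    ext l
    simp only [Qs, Finset.mem_filter, Finset.mem_Icc, Finset.mem_Ioc]
    constructor
    · rintro ⟨⟨h3, h4⟩, h5, h6, h7⟩
      exact ⟨⟨h6, h4⟩, h5, h7⟩
    · rintro ⟨⟨h3, h4⟩, h5, h6⟩
      exact ⟨⟨by omega, h4⟩, h5, h3, h6⟩
  have habel := sum_mul_eq_sub_sub_integral_mul c (f := f) (a := (u : ℝ)) (b := v)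
    (by positivity) huv (fun t ht => (hderiv t ht).differentiableAt) hdint
  -- the integral
  have hgint : IntegrableOn (fun t => deriv f t * S t) (Set.Ioc (u : ℝ) v) :=
    (integrableOn_mul_sum_Icc c (m := 0) (by positivity) hdint).mono_set Set.Ioc_subset_Icc_self
  have hL2 : IntegrableOn (fun t : ℝ => t⁻¹ / Real.log t) (Set.Ioc (u : ℝ) v) :=
    hLint.mono_set Set.Ioc_subset_Icc_self
  have hD2 : IntegrableOn (fun t : ℝ => C * (t⁻¹ / Real.log t ^ 2)) (Set.Ioc (u : ℝ) v) :=
    (hDint.mono_set Set.Ioc_subset_Icc_self).const_mul C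
  have hI1 : ∫ t in Set.Ioc (u : ℝ) v, t⁻¹ / Real.log t =
      Real.log (Real.log v) - Real.log (Real.log u) := by
    rw [← intervalIntegral.integral_of_le huv]
    refine intervalIntegral.integral_eq_sub_of_hasDerivAt (f := fun t => Real.log (Real.log t))
      (fun t ht => ?_) ?_
    · rw [Set.uIcc_of_le huv] at ht
      exact (Real.hasDerivAt_log (hne t ht)).log (hlogpos t ht).ne'
    · rw [intervalIntegrable_iff_integrableOn_Icc_of_le huv]
      exact hLint
  have hI2 : ∫ t in Set.Ioc (u : ℝ) v, C * (t⁻¹ / Real.log t ^ 2) =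
      C * ((Real.log u)⁻¹ - (Real.log v)⁻¹) := by
    rw [integral_const_mul, ← intervalIntegral.integral_of_le huv]
    congr 1
    have h2 := intervalIntegral.integral_eq_sub_of_hasDerivAt (a := (u : ℝ)) (b := v)
      (f := fun t => -f t) (f' := fun t => t⁻¹ / Real.log t ^ 2)
      (fun t ht => by
        rw [Set.uIcc_of_le huv] at ht
        have h3 := (hderiv t ht).neg
        have e : -(-(t⁻¹) / Real.log t ^ 2) = t⁻¹ / Real.log t ^ 2 := by ring
        rw [e] at h3
        exact h3)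
      (by
        rw [intervalIntegrable_iff_integrableOn_Icc_of_le huv]
        exact hDint)
    rw [h2]
    simp only [hf]
    ring
  have hJ : |(∫ t in Set.Ioc (u : ℝ) v, deriv f t * S t) +
      (Real.log (Real.log v) - Real.log (Real.log u))| ≤
        C * ((Real.log u)⁻¹ - (Real.log v)⁻¹) := by
    rw [← hI1, ← hI2, ← integral_add hgint hL2, ← Real.norm_eq_abs]
    refine norm_integral_le_of_norm_le hD2 ?_
    rw [ae_restrict_iff' measurableSet_Ioc]
    refine Filter.Eventually.of_forall fun t ht => ?_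
    have ht' : t ∈ Set.Icc (u : ℝ) v := Set.Ioc_subset_Icc_self ht
    have h3 := hlogpos t ht'
    have h4 : 0 < t := by have := ht'.1; linarith
    rw [(hderiv t ht').deriv, Real.norm_eq_abs]
    have e : -t⁻¹ / Real.log t ^ 2 * S t + t⁻¹ / Real.log t =
        -(t⁻¹ / Real.log t ^ 2 * (S t - Real.log t)) := by
      field_simp
      ring
    rw [e, abs_neg, abs_mul, abs_of_pos (by positivity : 0 < t⁻¹ / Real.log t ^ 2), mul_comm]
    exact mul_le_mul_of_nonneg_right (hSE t (by linarith [ht'.1])) (by positivity)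
  rw [hsum, habel]
  have hlu := hlogpos u ⟨le_rfl, huv⟩
  have hlv := hlogpos v ⟨huv, le_rfl⟩
  have h5 := hSE u (by linarith)
  have h6 := hSE v (by linarith)
  change |f v * S v - f u * S u - (∫ t in Set.Ioc (u : ℝ) v, deriv f t * S t) -
    (Real.log (Real.log v) - Real.log (Real.log u))| ≤ _
  have h7 : |f v * (S v - Real.log v)| ≤ C * (Real.log v)⁻¹ := by
    rw [abs_mul, abs_of_pos (by simp only [hf]; positivity : 0 < f v), mul_comm]
    exact mul_le_mul_of_nonneg_right h6 (by positivity)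
  have h8 : |f u * (S u - Real.log u)| ≤ C * (Real.log u)⁻¹ := by
    rw [abs_mul, abs_of_pos (by simp only [hf]; positivity : 0 < f u), mul_comm]
    exact mul_le_mul_of_nonneg_right h5 (by positivity)
  have e1 : f v * S v = 1 + f v * (S v - Real.log v) := by
    simp only [hf]
    field_simp
    ring
  have e2 : f u * S u = 1 + f u * (S u - Real.log u) := by
    simp only [hf]
    field_simp
    ring
  have h9 : (Real.log v)⁻¹ ≤ (Real.log u)⁻¹ := by
    apply inv_anti₀ hlu
    exact Real.log_le_log (by linarith) huv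
  have h10 : C * (Real.log v)⁻¹ ≤ C * (Real.log u)⁻¹ := mul_le_mul_of_nonneg_left h9 hC.le
  rw [e1, e2]
  rw [abs_le] at h7 h8 hJ ⊢
  rw [div_eq_mul_inv]
  constructor <;> nlinarith [h7.1, h7.2, h8.1, h8.2, hJ.1, hJ.2, h10]

end GD
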